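import Mathlib

open MeasureTheory DihedralGroup

namespace Pool.Agent.Results.MP_d52620_an.Dihedral

/-- Følner's condition -/
def Amenable (G : Type) [Group G] : Prop :=
  ∀ (K : Finset G) (ε : ℝ), 0 < ε → ∃ F : Finset G, F.Nonempty ∧
    ∀ g ∈ K, ({x | x ∈ F ∧ g * x ∉ F}.ncard : ℝ) ≤ ε * F.card

section
variable {G M : Type} [Group G] [TopologicalSpace M]

/-- cocycles over `α` -/
def IsCocycle (α : G →* (M ≃ₜ M)) (c : G → C(M, ℝ)) : Prop :=
  ∀ g h x, c (g * h) x = c g (α h x) + c h x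

/-- `ρ_μ(c) = 0` for every invariant Borel probability measure -/
def InO [MeasurableSpace M] (α : G →* (M ≃ₜ M)) (c : G → C(M, ℝ)) : Prop :=
  ∀ μ : Measure M, IsProbabilityMeasure μ → (∀ g, μ.map (α g) = μ) → ∀ g, ∫ x, c g x ∂μ = 0

/-- `c` is in the closure of the coboundaries for the norm given by `S` -/
def InClosure (α : G →* (M ≃ₜ M)) (S : Finset G) (c : G → C(M, ℝ)) : Prop :=
  ∀ ε : ℝ, 0 < ε → ∃ u : C(M, ℝ), ∀ s ∈ S, ∀ x, |c s x - (u (α s x) - u x)| ≤ ε

end

def idx : DihedralGroup 0 → ℤ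
  | r i => i
  | sr i => i

def e (p : ℤ × Bool) : DihedralGroup 0 := if p.2 then r p.1 else sr p.1

lemma e_inj : Function.Injective e := by
  rintro ⟨a, _ | _⟩ ⟨b, _ | _⟩ h <;> simp_all [e]

noncomputable def F (n : ℕ) : Finset (DihedralGroup 0) := (Finset.Icc (-(n : ℤ)) n ×ˢ Finset.univ).map ⟨e, e_inj⟩

lemma mem_F {n : ℕ} {x : DihedralGroup 0} : x ∈ F n ↔ (idx x).natAbs ≤ n := by
  simp only [F, Finset.mem_map, Finset.mem_product, Finset.mem_Icc, Finset.mem_univ, and_true,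
    Function.Embedding.coeFn_mk]
  constructor
  · rintro ⟨⟨a, _ | _⟩, h, rfl⟩ <;> simp [e, idx] at h ⊢ <;> omega
  · intro h
    rcases x with i | i
    · exact ⟨(i, true), by simp [idx] at h ⊢; omega, rfl⟩
    · exact ⟨(i, false), by simp [idx] at h ⊢; omega, rfl⟩

lemma card_F (n : ℕ) : (F n).card = 4 * n + 2 := by
  simp [F]; omega

lemma idx_mul (g x : DihedralGroup 0) : idx (g * x) = idx x + idx g ∨ idx (g * x) = idx x - idx g := by
  rcases g with i | i <;> rcases x with j | j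
  · exact Or.inl (add_comm (G := ℤ) i j)
  · exact Or.inr rfl
  · exact Or.inl (add_comm (G := ℤ) i j)
  · exact Or.inr rfl

lemma amen : Amenable (DihedralGroup 0) := by
  intro K ε hε
  let k := K.sup fun g => (idx g).natAbs
  obtain ⟨n, hn⟩ := exists_nat_gt (k / ε)
  refine ⟨F (n + k), ⟨1, mem_F.2 (by show (0 : ℤ).natAbs ≤ _; simp)⟩, fun g hg => ?_⟩
  have h1 : (idx g).natAbs ≤ k := Finset.le_sup (f := fun g => (idx g).natAbs) hg
  have h2 := Set.ncard_le_ncard (s := {x | x ∈ F (n + k) ∧ g * x ∉ F (n + k)})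
    (t := (F (n + k) \ F n : Finset _)) (fun x hx => by
      have := idx_mul g x
      simp only [Set.mem_ofPred_eq, mem_F, Finset.coe_sdiff, Set.mem_sdiff, Finset.mem_coe] at hx ⊢
      omega) (Finset.finite_toSet _)
  rw [Set.ncard_coe_finset, Finset.card_sdiff_of_subset (fun x => by simp only [mem_F]; omega),
    card_F, card_F] at h2
  have h3 : (({x | x ∈ F (n + k) ∧ g * x ∉ F (n + k)}.ncard : ℕ) : ℝ) ≤ ((4 * k : ℕ) : ℝ) := by
    exact_mod_cast h2.trans (by omega)
  rw [div_lt_iff₀ hε] at hn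
  rw [card_F]
  push_cast at h3 ⊢
  have : (0 : ℝ) ≤ k := k.cast_nonneg
  nlinarith

abbrev M := Metric.sphere (0 : ℝ) 1

noncomputable def neg : M ≃ₜ M where
  toFun x := -x
  invFun x := -x
  left_inv := neg_neg
  right_inv := neg_neg

noncomputable def act : DihedralGroup 0 → M ≃ₜ M
  | r _ => 1
  | sr _ => neg

noncomputable def α : DihedralGroup 0 →* (M ≃ₜ M) := MonoidHom.mk' act (by
  rintro (i | i) (j | j) <;> ext x <;> simp [act, neg])

theorem result : ∃ (G : Type) (_ : Group G) (S : Finset G) (M : Type) (_ : MetricSpace M)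
    (_ : CompactSpace M) (_ : MeasurableSpace M) (_ : BorelSpace M) (α : G →* (M ≃ₜ M))
    (c : G → C(M, ℝ)), Subgroup.closure (S : Set G) = ⊤ ∧ (∀ s ∈ S, s⁻¹ ∈ S) ∧ 1 ∉ S ∧
      Amenable G ∧ IsCocycle α c ∧ InO α c ∧ ¬ InClosure α S c := by
  refine ⟨DihedralGroup 0, inferInstance, {r 1, r (-1), sr 0}, M, inferInstance, inferInstance,
    inferInstance, inferInstance, α, fun g => ⟨fun x => idx g * x.1, by fun_prop⟩, ?_, by decide,
    by decide, amen, ?_, fun μ _ h g => ?_, fun h => ?_⟩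
  · have h1 : ∀ i, r i ∈ Subgroup.closure (({r 1, r (-1), sr 0} : Finset (DihedralGroup 0)) :
        Set (DihedralGroup 0)) := fun i => by
      have := Subgroup.zpow_mem _ (Subgroup.subset_closure (k := (({r 1, r (-1), sr 0} :
        Finset (DihedralGroup 0)) : Set (DihedralGroup 0))) (a := r 1) (by simp)) i
      rwa [r_one_zpow] at this
    rw [eq_top_iff]
    rintro (i | i) -
    · exact h1 i
    · have := Subgroup.mul_mem _ (Subgroup.subset_closure (k := (({r 1, r (-1), sr 0} :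
        Finset (DihedralGroup 0)) : Set (DihedralGroup 0))) (a := sr 0) (by simp)) (h1 i)
      simpa using this
  · have a1 : ∀ (i j : ℤ) (x : ℝ), ((i + j : ℤ) : ℝ) * x = i * x + j * x := fun i j x => by
      push_cast; ring
    have a2 : ∀ (i j : ℤ) (x : ℝ), ((j - i : ℤ) : ℝ) * x = i * -x + j * x := fun i j x => by
      push_cast; ring
    rintro (i | i) (j | j) x
    exacts [a1 i j x, a2 i j x, a1 i j x, a2 i j x]
  · have h1 : ∫ x : M, x.1 ∂μ = ∫ x : M, -x.1 ∂μ := by
      conv_lhs => rw [← h (sr 0)]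
      exact integral_map (α (sr 0)).continuous.aemeasurable continuous_subtype_val.aestronglyMeasurable
    rw [integral_neg] at h1
    show ∫ x : M, (idx g : ℝ) * x.1 ∂μ = 0
    rw [integral_const_mul, show ∫ x : M, x.1 ∂μ = 0 by linarith, mul_zero]
  · obtain ⟨u, hu⟩ := h (1 / 2) (by norm_num)
    have := hu (r 1) (by simp) ⟨1, by simp⟩
    change |((1 : ℤ) : ℝ) * 1 - (u _ - u _)| ≤ _ at this
    erw [sub_self] at this
    norm_num at this

end Pool.Agent.Results.MP_d52620_an.Dihedral
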